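import Pool.Agent.Helper22.HE.Struct
import Pool.Agent.Helper54.HZ.TBound

/-!
MP_143e28_ag, growing degrees, `p = 2` (project HG2 of helper22; helper62): the bound for the group, points with weights.

As `Bound2.lean` of `Helper28/HN` with a weaker hypothesis: in the last case `2 g + 2 d - 2 = w P * (q + 1) + w Q * q * (q - 1) ≤ (d - 1) (q ^ 2 + 1)`.
-/

set_option autoImplicit false

namespace Pool.Agent.Helper22.HG2

open Pool.Agent.Helper28.HA Pool.Agent.Helper54.HZ Pool.Agent.Helper22.HE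

variable {k : Type*} [Field k]

private theorem Bound3_sum (G : Subgroup (Equiv.Perm (OnePoint k))) [Finite G]
    (w : OnePoint k → ℕ) (P : OnePoint k) (h : ∀ s ∈ G, w (s P) = w P) :
    ∑ Q ∈ (card_orb_mul G P).1.toFinset, w Q = w P * Nat.card (orb G P) := by
  have h1 : ∑ Q ∈ (card_orb_mul G P).1.toFinset, w Q =
      ∑ _Q ∈ (card_orb_mul G P).1.toFinset, w P := by
    refine Finset.sum_congr rfl fun Q hQ => ?_
    rw [Set.Finite.mem_toFinset] at hQ
    obtain ⟨s, hs, rfl⟩ := hQ
    rw [h s hs]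
  have e1 : ∀ (S : Set (OnePoint k)) (hS : S.Finite), hS.toFinset.card = Nat.card S := by
    intro S hS
    rw [Nat.card_coe_set_eq, Set.ncard_eq_toFinset_card S hS]
  rw [h1, Finset.sum_const, smul_eq_mul, e1, mul_comm]

/-- the case `q = 2` -/
private theorem Bound3_two {a x y d g c : ℕ} (hodd : Odd a) (hc : a * 2 = c) (hy : y + 1 ≤ d)
    (hdg : d ≤ g) (hg : 0 < g) (hS : x * a + y * ((2 - 2) * a + 2) + 2 = 2 * g + 2 * d) :
    c ≤ 4 * g + 2 := by
  have h1 : (2 - 2) * a + 2 = 2 := by simp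
  rw [h1] at hS
  obtain ⟨b, hb⟩ := hodd
  rcases Nat.lt_or_ge x 2 with hx | hx
  · interval_cases x
    · omega
    · omega
  · have h2 : 2 * a ≤ x * a := Nat.mul_le_mul_right a hx
    omega

/-- the other cases -/
private theorem Bound3_big {q a x y d g Q j : ℕ} (hq2 : 2 ≤ q) (hj : q = 2 ^ j)
    (hcase : a = 1 ∨ a = q + 1) (hx : x + 1 ≤ d) (hy : y + 1 ≤ d)
    (hS : x * a + y * ((q - 2) * a + 2) + 2 = 2 * g + 2 * d)
    (hQ : ∀ e v : ℕ, v < d → 2 ^ e ∣ 2 * g + 2 * d - 2 - v → 2 ^ e ≤ Q)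
    (hbig : d * (1 + Q ^ 2) < 2 * g) : False := by
  have hQQ : Q ≤ Q ^ 2 := Nat.le_self_pow (by norm_num) Q
  rcases hcase with rfl | rfl
  · have h1 : (q - 2) * 1 + 2 = q := by omega
    rw [h1, mul_one] at hS
    have h2 : 2 * g + 2 * d - 2 - x = y * q := by omega
    have h3 : q ≤ Q := by
      have := hQ j x (by omega) (by rw [h2, ← hj]; exact dvd_mul_left _ _)
      rwa [← hj] at this
    have h4 : y * q ≤ d * Q := Nat.mul_le_mul (by omega) h3
    have h5 : d * Q ≤ d * (1 + Q ^ 2) := Nat.mul_le_mul_left _ (by omega)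
    omega
  · obtain ⟨t, rfl⟩ := Nat.exists_eq_add_of_le' hq2
    have h1 : (t + 2 - 2) * (t + 2 + 1) + 2 = (t + 2) * (t + 1) := by
      rw [Nat.add_sub_cancel]
      ring
    rw [h1] at hS
    have h6 : x * (t + 2 + 1) + y * ((t + 2) * (t + 1)) = x + (t + 2) * (x + y * (t + 1)) := by
      ring
    have h2 : 2 * g + 2 * d - 2 - x = (t + 2) * (x + y * (t + 1)) := by
      rw [h6] at hS
      omega
    have h3 : t + 2 ≤ Q := by
      have := hQ j x (by omega) (by rw [h2, ← hj]; exact dvd_mul_right _ _)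
      rwa [← hj] at this
    have h4 : x * (t + 2 + 1) + y * ((t + 2) * (t + 1)) ≤
        d * (t + 2 + 1) + d * ((t + 2) * (t + 1)) := by
      apply Nat.add_le_add
      · exact Nat.mul_le_mul_right _ (by omega)
      · exact Nat.mul_le_mul_right _ (by omega)
    have h7 : d * (t + 2 + 1) + d * ((t + 2) * (t + 1)) = d * (1 + (t + 2) ^ 2) := by ring
    have h8 : d * (1 + (t + 2) ^ 2) ≤ d * (1 + Q ^ 2) :=
      Nat.mul_le_mul_left _ (Nat.add_le_add_left (Nat.pow_le_pow_left h3 2) 1)
    omega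

theorem d_bound3 [IsAlgClosed k] [CharP k 2]
    (G : Subgroup (Equiv.Perm (OnePoint k))) [Finite G] (hG : MobGroup G) (w : OnePoint k → ℕ)
    (hw : ∀ s ∈ G, ∀ P, w (s P) = w P) (d g Q : ℕ) (hd : 2 ≤ d) (hw2 : ∀ P, w P + 1 ≤ d)
    (hsum : (∑ᶠ P, w P) + 2 = 2 * g + 2 * d)
    (hQ : ∀ e v : ℕ, v < d → 2 ^ e ∣ 2 * g + 2 * d - 2 - v → 2 ^ e ≤ Q)
    (hdg : d ^ 2 < g) (hbig : d * (1 + Q ^ 2) < 2 * g) :
    Nat.card G ≤ 4 * g + 2 := by
  classical
  by_contra hcon
  push Not at hcon
  have hdd : d ≤ d ^ 2 := Nat.le_self_pow (by norm_num) d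
  have hfin : (Function.support w).Finite := by
    by_contra hinf
    rw [finsum_of_infinite_support hinf] at hsum
    omega
  have hsum' : ∀ S : Finset (OnePoint k), Function.support w ⊆ (S : Set (OnePoint k)) →
      (∑ P ∈ S, w P) + 2 = 2 * g + 2 * d := by
    intro S hS
    rw [← hsum]
    exact congrArg (fun t => t + 2) (finsum_eq_sum_of_support_subset w hS).symm
  have hle : ∀ S : Finset (OnePoint k), (∑ P ∈ S, w P) + 2 ≤ 2 * g + 2 * d := by
    intro S
    rw [← hsum' (S ∪ hfin.toFinset) (by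
      rw [Finset.coe_union, Set.Finite.coe_toFinset]
      exact Set.subset_union_right)]
    exact Nat.add_le_add_right (Finset.sum_le_sum_of_subset Finset.subset_union_left) 2
  have hstab : ∀ P, w P ≠ 0 → 2 ≤ Nat.card (stab G P) := by
    intro P hP
    by_contra hlt
    push Not at hlt
    obtain ⟨hf, hmul⟩ := card_orb_mul G P
    have h5 := Bound3_sum G w P fun s hs => hw s hs P
    have h6 := hle (card_orb_mul G P).1.toFinset
    rw [h5] at h6
    have h7 : Nat.card G ≤ Nat.card (orb G P) := by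
      rw [← hmul]
      calc Nat.card (orb G P) * Nat.card (stab G P) ≤ Nat.card (orb G P) * 1 :=
            Nat.mul_le_mul_left _ (by omega)
        _ = _ := mul_one _
    have h8 : Nat.card (orb G P) ≤ w P * Nat.card (orb G P) :=
      Nat.le_mul_of_pos_left _ (Nat.pos_of_ne_zero hP)
    omega
  by_cases hwild : ∃ P, ∃ s ∈ uni G P, s ≠ 1
  · obtain ⟨P, hP⟩ := hwild
    obtain ⟨q, a, hq, ha, hq2, ⟨j, hj⟩, hodd, hcase, hQs⟩ := wild_struct G hG hP
    have hmem : ∀ R X : OnePoint k, X ∈ (card_orb_mul G R).1.toFinset ↔ X ∈ orb G R :=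
      fun R X => Set.Finite.mem_toFinset _
    have key : ∃ y, y + 1 ≤ d ∧ w P * a + y * ((q - 2) * a + 2) + 2 = 2 * g + 2 * d := by
      by_cases hex : ∃ Q0, 2 ≤ Nat.card (stab G Q0) ∧ Q0 ∉ orb G P
      · obtain ⟨Q0, h1, h2⟩ := hex
        obtain ⟨hn, hall⟩ := hQs Q0 h1 h2
        refine ⟨w Q0, hw2 Q0, ?_⟩
        rw [← hsum' ((card_orb_mul G P).1.toFinset ∪ (card_orb_mul G Q0).1.toFinset) ?_,
          Finset.sum_union ?_, Bound3_sum G w P (fun s hs => hw s hs P),
          Bound3_sum G w Q0 (fun s hs => hw s hs Q0), hn, ha]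
        · rw [Finset.disjoint_left]
          intro X hX hX'
          rw [hmem] at hX hX'
          apply h2
          exact Pool.Agent.Helper22.HB.Wild_orb_trans G hX
            (Pool.Agent.Helper22.HB.Wild_orb_symm G hX')
        · intro X hX
          rw [Finset.mem_coe, Finset.mem_union, hmem, hmem]
          by_cases hXP : X ∈ orb G P
          · exact Or.inl hXP
          · exact Or.inr (hall X (hstab X hX) hXP)
      · push Not at hex
        refine ⟨0, by omega, ?_⟩
        rw [zero_mul, add_zero, ← hsum' (card_orb_mul G P).1.toFinset ?_,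
          Bound3_sum G w P (fun s hs => hw s hs P), ha]
        intro X hX
        rw [Finset.mem_coe, hmem]
        exact hex X (hstab X hX)
    obtain ⟨y, hy, hS⟩ := key
    rcases hcase with h2 | h1 | ⟨h1, -⟩
    · subst h2
      obtain ⟨m, hm1, hm2⟩ := card_stab G hG P
      rw [← hq] at hm1 hm2
      have hm : m = 1 := by simpa using hm2
      have hc := (card_orb_mul G P).2
      rw [hm1, hm, mul_one, ← ha] at hc
      have := Bound3_two hodd hc hy (by omega) (by omega) hS
      omega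
    · exact Bound3_big hq2 hj (Or.inl h1) (hw2 P) hy hS hQ hbig
    · exact Bound3_big hq2 hj (Or.inr h1) (hw2 P) hy hS hQ hbig
  · push Not at hwild
    obtain ⟨hBf, hB2⟩ := tame_struct G hG hwild (Function.support w) (fun P hP => hstab P hP)
    have h1 := hsum' hBf.toFinset (by rw [Set.Finite.coe_toFinset])
    have h2 : ∑ P ∈ hBf.toFinset, w P ≤ hBf.toFinset.card * (d - 1) := by
      rw [← smul_eq_mul]
      apply Finset.sum_le_card_nsmul
      intro P _
      have := hw2 P
      omega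
    have h3 : hBf.toFinset.card ≤ 2 := by
      rw [Nat.card_coe_set_eq, Set.ncard_eq_toFinset_card _ hBf] at hB2
      exact hB2
    have h4 : hBf.toFinset.card * (d - 1) ≤ 2 * (d - 1) := Nat.mul_le_mul_right _ h3
    omega

end Pool.Agent.Helper22.HG2
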