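import Pool.Agent.Helper22.HG2.Spec
import Pool.Agent.Helper22.HG2.Bound3
import Pool.Agent.Helper22.HM.EvenB
import Pool.Agent.Helper54.HZ.Mem
import Pool.Agent.Helper54.HZ.Grp
import Pool.Agent.Helper28.HN.Mem
import Pool.Agent.Helper28.HN.Grp
import Pool.Agent.Helper28.HN.Kum
import Pool.Agent.Helper28.HN.Gen

/-!
MP_143e28_ag, project HG2 (helper22): cyclic covers of odd prime degree and tame indecomposable maps of degree at most `N ≤ 2 ^ v`, genus `8 ^ v + 2 ^ v`, characteristic 2.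

Copy `upperNM`, `upperDM` (`Helper22/HM/CycM.lean`): `casesG` in the place of `casesM` (`even_bound` with `r % 4 = 2`: `2 ^ e ∣ r` gives `2 ^ e ≤ 2`), `d_bound3` in the place of `d_bound2` with `Q = 2 N` and `tameG`:
`n ^ 2 ≤ N ^ 2 < g` and `n (1 + 4 N ^ 2) ≤ N + 4 N ^ 3 < 2 g`, as `9 N ^ 3 ≤ g`.
-/

set_option autoImplicit false

namespace Pool.Agent.Helper22.HG2

open Polynomial Pool.Agent.Helper28.HA Pool.Agent.Helper54.HY Pool.Agent.Helper54.HZ Pool.Agent.Helper28.HN Pool.Agent.Helper22.HM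

theorem upperNG {k F : Type*} [Field k] [IsAlgClosed k] [CharP k 2] [Field F] [Algebra k F] {v N n : ℕ}
    (hv : 3 ≤ v) (hN : N ≤ 2 ^ v) (hnN : n ≤ N) {x y : F} {f : k[X]}
    (h : PresN k F n (8 ^ v + 2 ^ v) x y f) :
    Finite (F ≃ₐ[k] F) ∧ Nat.card (F ≃ₐ[k] F) ≤ 4 * (8 ^ v + 2 ^ v) + 4 := by
  have hl0 : 0 < 8 ^ v + 2 ^ v := by positivity
  have hn2 : n ≠ 2 := by
    rintro rfl
    exact h.char (CharP.cast_eq_zero k 2)
  obtain ⟨hr4, hr12, hr, hbd⟩ := casesG hv hN h.prime hn2 hnN h.genus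
  have heven : Even (Nat.card (BrN n f)) := by
    rw [Nat.even_iff]
    omega
  have hpow : ∀ e : ℕ, 2 ^ e ∣ Nat.card (BrN n f) → 2 ^ e ≤ 4 := by
    intro e he
    rcases Nat.lt_or_ge e 3 with h1 | h1
    · calc 2 ^ e ≤ 2 ^ 2 := Nat.pow_le_pow_right (by norm_num) (by omega)
        _ = 4 := by norm_num
    · exfalso
      have h2 : 2 ^ 2 ∣ Nat.card (BrN n f) := (pow_dvd_pow 2 (by omega)).trans he
      rw [show (2 : ℕ) ^ 2 = 4 by norm_num] at h2
      omega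
  obtain ⟨G, hG, hGB, hGc⟩ := auto_groupN hl0 h (fun s => auto_memN hl0 h hr s)
  have hB := finite_BrN n h.ne0
  obtain ⟨hGf, -⟩ := mob_finite G hG (BrN n f) hB (by omega) hGB
  obtain ⟨h3, h4⟩ := hGc hGf
  haveI := hGf
  have h5 := even_bound G hG (BrN n f) hB hGB heven hr12 hpow
  exact ⟨h3, h4.trans ((Nat.mul_le_mul_left n h5).trans hbd)⟩

theorem upperDG {k F : Type*} [Field k] [IsAlgClosed k] [CharP k 2] [Field F] [Algebra k F] {v N n : ℕ}
    (hv : 3 ≤ v) (hN : N ≤ 2 ^ v) (hN3 : 9 * N ^ 3 ≤ 8 ^ v + 2 ^ v) (hnN : n ≤ N) {x : F}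
    (h : PresD k F 2 n (8 ^ v + 2 ^ v) x) :
    Finite (F ≃ₐ[k] F) ∧ Nat.card (F ≃ₐ[k] F) ≤ 4 * (8 ^ v + 2 ^ v) + 4 := by
  have hn2 : 2 ≤ n := h.two
  have hQ : ∀ e w : ℕ, w < n → 2 ^ e ∣ 2 * (8 ^ v + 2 ^ v) + 2 * n - 2 - w → 2 ^ e ≤ 2 * N :=
    fun e w hw hh => tameG hN n hn2 hnN e w hw hh
  have hup : ∀ (x' y' : F) (f' : k[X]), PresN k F n (8 ^ v + 2 ^ v) x' y' f' →
      Finite (F ≃ₐ[k] F) ∧ Nat.card (F ≃ₐ[k] F) ≤ 4 * (8 ^ v + 2 ^ v) + 4 :=
    fun _ _ _ hP => upperNG hv hN hnN hP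
  have hg0 : 0 < 8 ^ v + 2 ^ v := by positivity
  generalize 8 ^ v + 2 ^ v = g at *
  have hNN : n ^ 2 ≤ N ^ 2 := Nat.pow_le_pow_left hnN 2
  have hN2 : 2 ≤ N := hn2.trans hnN
  have hN3' : N ^ 2 * 2 ≤ N ^ 3 := by
    rw [pow_succ N 2]
    exact Nat.mul_le_mul_left _ hN2
  have hN2' : N * 2 ≤ N ^ 2 := by
    rw [pow_two]
    exact Nat.mul_le_mul_left _ hN2
  have hdg : n ^ 2 < g := by omega
  have hbig : n * (1 + (2 * N) ^ 2) < 2 * g := by
    have e1 : n * (1 + (2 * N) ^ 2) ≤ N * (1 + (2 * N) ^ 2) := Nat.mul_le_mul_right _ hnN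
    have e2 : N * (1 + (2 * N) ^ 2) = N + 4 * N ^ 3 := by ring
    omega
  have hgn : (n - 1) ^ 2 < g := by
    have e1 : (n - 1) ^ 2 ≤ n ^ 2 := Nat.pow_le_pow_left (Nat.sub_le n 1) 2
    omega
  have hmem : ∀ s : F ≃ₐ[k] F, s x ∈ IntermediateField.adjoin k {x} := fun s => d_mem hgn h s
  by_cases hker : ∀ s : F ≃ₐ[k] F, s x = x → s = 1
  · obtain ⟨G, hG, hw, hfin⟩ := d_group n h.trans hmem hker
    -- the support of the weight
    have hsupp : (Function.support (ramD n h.trans)).Finite := by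
      by_contra hinf
      have := h.genus
      rw [finsum_of_infinite_support hinf] at this
      omega
    have hcard : 3 ≤ Nat.card (Function.support (ramD n h.trans)) := by
      have e1 := h.genus
      rw [finsum_eq_sum_of_support_subset (ramD n h.trans) (s := hsupp.toFinset) (by simp)] at e1
      have e2 : ∑ P ∈ hsupp.toFinset, ramD n h.trans P ≤ ∑ _P ∈ hsupp.toFinset, (n - 1) :=
        Finset.sum_le_sum (fun P _ => ramD_le n h.trans P)
      rw [Finset.sum_const, smul_eq_mul] at e2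
      have e3 : Nat.card (Function.support (ramD n h.trans)) = hsupp.toFinset.card := by
        rw [Nat.card_coe_set_eq, Set.ncard_eq_toFinset_card _ hsupp]
      by_contra hlt
      have e4 : hsupp.toFinset.card * (n - 1) ≤ 2 * (n - 1) := Nat.mul_le_mul_right _ (by omega)
      omega
    obtain ⟨hGf, -⟩ := mob_finite G hG (Function.support (ramD n h.trans)) hsupp hcard (by
      intro s hs P hP
      simp only [Function.mem_support] at hP ⊢
      rw [hw s hs P]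
      exact hP)
    obtain ⟨ha, hb⟩ := hfin hGf
    haveI := hGf
    refine ⟨ha, (hb.trans (d_bound3 G hG (ramD n h.trans) hw n g (2 * N) hn2 (fun P => ?_)
      h.genus hQ hdg hbig)).trans (by omega)⟩
    have := ramD_le n h.trans P
    omega
  · push Not at hker
    obtain ⟨s, hsx, hs1⟩ := hker
    obtain ⟨hnp, y, f, hgen, hf, hm, hy, hyx⟩ := d_kum h.two h.char h.trans h.deg h.simple s hs1 hsx
    have hP := d_gen hnp h hgen hf hm hy hyx
    exact hup _ _ _ hP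

end Pool.Agent.Helper22.HG2
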