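import Pool.Agent.Helper22.HM.HypM

/-!
MP_143e28_ag, project HG2 (helper22): `group_boundM` (`Helper22/HM/HypM.lean`) with `U` in the place of `8`.

Copy the proof: only the case of one pole changes: `#uni = q ≤ U`, `#stab = q m'`, `m' ∣ q - 1`, `#G = #stab ≤ q (q - 1) ≤ U (U - 1) ≤ 2 g + 2` (`q ≥ 2`, as `uni G P` is not trivial).
-/

set_option autoImplicit false

namespace Pool.Agent.Helper22.HG2

open Polynomial OnePoint Pool.Agent.Helper28.HA Pool.Agent.Helper22.HB Pool.Agent.Helper22.HE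

variable {k : Type*} [Field k]

omit [Field k] in
private theorem HypG_sum (m : OnePoint k → ℕ) (hf : {P | m P ≠ 0}.Finite) :
    ∑ᶠ P : OnePoint k, (if m P = 0 then 0 else m P + 1) = ∑ P ∈ hf.toFinset, (m P + 1) := by
  rw [finsum_eq_sum_of_support_subset _ (s := hf.toFinset)]
  · refine Finset.sum_congr rfl fun P hP => ?_
    rw [Set.Finite.mem_toFinset] at hP
    rw [if_neg hP]
  · intro P hP
    rw [Function.mem_support] at hP
    rw [Set.Finite.coe_toFinset]
    intro h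
    apply hP
    rw [if_pos h]

omit [Field k] in
private theorem HypG_orb_eq (G : Subgroup (Equiv.Perm (OnePoint k))) (m : OnePoint k → ℕ)
    (hm : ∀ s ∈ G, ∀ P, m (s P) = m P) {P Q : OnePoint k} (hQ : Q ∈ orb G P) : m Q = m P := by
  obtain ⟨s, hs, rfl⟩ := hQ
  exact hm s hs P

omit [Field k] in
private theorem HypG_orb_sub (G : Subgroup (Equiv.Perm (OnePoint k))) (m : OnePoint k → ℕ)
    (hm : ∀ s ∈ G, ∀ P, m (s P) = m P) {P : OnePoint k} (hP : m P ≠ 0) :
    orb G P ⊆ {P | m P ≠ 0} := by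
  intro Q hQ
  show m Q ≠ 0
  rw [HypG_orb_eq G m hm hQ]
  exact hP

omit [Field k] in
private theorem HypG_orb_sum (G : Subgroup (Equiv.Perm (OnePoint k))) (m : OnePoint k → ℕ)
    (hm : ∀ s ∈ G, ∀ P, m (s P) = m P) {P : OnePoint k} (h1 : (orb G P).Finite) :
    ∑ Q ∈ h1.toFinset, (m Q + 1) = Nat.card (orb G P) * (m P + 1) := by
  rw [Finset.sum_congr rfl (g := fun _ => m P + 1) fun Q hQ => by
    rw [HypG_orb_eq G m hm ((Set.Finite.mem_toFinset _).1 hQ)], Finset.sum_const, smul_eq_mul,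
    Nat.card_coe_set_eq, Set.ncard_eq_toFinset_card _ h1]

theorem group_boundG {k : Type*} [Field k] [IsAlgClosed k] [CharP k 2] (G : Subgroup (Equiv.Perm (OnePoint k)))
    (hfin : Finite G) (hG : MobGroup G) (m : OnePoint k → ℕ) (hm : ∀ s ∈ G, ∀ P, m (s P) = m P)
    (hf : {P | m P ≠ 0}.Finite) {g U : ℕ} (hg : 2 ≤ g) (hU : U * (U - 1) ≤ 2 * g + 2)
    (hodd : ∀ P, m P ≠ 0 → Odd (m P))
    (hsum : ∑ᶠ P : OnePoint k, (if m P = 0 then 0 else m P + 1) = 2 * g + 2)
    (ht : ∀ P, m P ≠ 0 → ∀ s ∈ stab G P, s ^ (m P) ∈ uni G P)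
    (hc : ∀ P, m P ≠ 0 → (∀ Q, m Q ≠ 0 → Q = P) → Nat.card (uni G P) ≤ U) :
    Nat.card G ≤ 2 * g + 2 ∨ ∃ q c j : ℕ, 4 ≤ q ∧ q = 2 ^ j ∧ 2 * g = (q - 1) * (c * (q + 1) + 1) := by
  haveI := hfin
  by_cases htame : ∃ P, m P ≠ 0 ∧ ∀ s ∈ uni G P, s = 1
  · obtain ⟨P, hP, hu⟩ := htame
    obtain ⟨-, h2⟩ := bound_tame G hG m hm hf hsum hP (ht P hP) hu
    exact Or.inl h2.le
  push Not at htame
  have hsum' := hsum
  rw [HypG_sum m hf] at hsum'
  -- `B` is not empty
  obtain ⟨P, hP⟩ : ∃ P, m P ≠ 0 := by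
    by_contra hcon
    push Not at hcon
    have h0 : hf.toFinset = ∅ := by
      ext Q
      rw [Set.Finite.mem_toFinset]
      constructor
      · intro h
        exact absurd (hcon Q) h
      · intro h
        exact absurd h (Finset.notMem_empty Q)
    rw [h0, Finset.sum_empty] at hsum'
    omega
  obtain ⟨s, hs, hs1⟩ := htame P hP
  have hB : {P | m P ≠ 0} = orb G P := by
    refine Set.Subset.antisymm ?_ (HypG_orb_sub G m hm hP)
    intro R hR
    exact one_wild G hG ⟨s, hs, hs1⟩ (htame R hR)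
  obtain ⟨h1, hmul⟩ := card_orb_mul G P
  have hn : Nat.card (orb G P) * (m P + 1) = 2 * g + 2 := by
    rw [← HypG_orb_sum G m hm h1, ← hsum']
    refine Finset.sum_congr ?_ fun _ _ => rfl
    ext R
    rw [Set.Finite.mem_toFinset, Set.Finite.mem_toFinset, hB]
  obtain ⟨q, a, hq, ha, hq2, ⟨j, hj⟩, haodd, hcase, -⟩ := wild_struct G hG ⟨s, hs, hs1⟩
  rw [← ha] at hn hmul
  have hmP : 1 ≤ m P := Nat.one_le_iff_ne_zero.2 hP
  have htwo : q = 2 → Nat.card G ≤ 2 * g + 2 := by
    intro h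
    obtain ⟨m', hm1, hm2⟩ := card_stab G hG P
    rw [← hq, h] at hm1 hm2
    have hm3 : m' = 1 := by
      have : m' ∣ 1 := hm2
      exact Nat.dvd_one.1 this
    rw [hm3] at hm1
    rw [hm1] at hmul
    have h9 : a * 2 ≤ a * (m P + 1) := Nat.mul_le_mul_left _ (by omega)
    omega
  rcases hcase with h | h | ⟨h, hst⟩
  · exact Or.inl (htwo h)
  · -- `a = 1`: one pole
    left
    have huniq : ∀ Q, m Q ≠ 0 → Q = P := by
      intro Q hQ
      have hQ' : Q ∈ orb G P := by
        rw [← hB]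
        exact hQ
      have hP' : P ∈ orb G P := by
        rw [← hB]
        exact hP
      have hcard : Nat.card (orb G P) = 1 := by rw [← ha, h]
      haveI : Subsingleton (orb G P) := (Nat.card_eq_one_iff_unique.1 hcard).1
      exact congrArg Subtype.val (Subsingleton.elim (⟨Q, hQ'⟩ : orb G P) ⟨P, hP'⟩)
    have h8 := hc P hP huniq
    rw [← hq] at h8
    obtain ⟨m', hm1, hm2⟩ := card_stab G hG P
    rw [← hq] at hm1 hm2
    have hm3 : m' ≤ q - 1 := Nat.le_of_dvd (by omega) hm2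
    rw [h, hm1] at hmul
    have h10 : q * m' ≤ U * (U - 1) := Nat.mul_le_mul h8 (by omega)
    omega
  · -- `a = q + 1`
    by_cases hq4 : q = 2
    · exact Or.inl (htwo hq4)
    · right
      have hq' : 4 ≤ q := by
        rcases Nat.lt_or_ge j 2 with hj2 | hj2
        · have : j = 0 ∨ j = 1 := by omega
          rcases this with h0 | h0
          · rw [h0, pow_zero] at hj
            omega
          · rw [h0, pow_one] at hj
            exact absurd hj hq4
        · rw [hj]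
          calc 4 = 2 ^ 2 := by norm_num
            _ ≤ 2 ^ j := Nat.pow_le_pow_right (by norm_num) hj2
      obtain ⟨c, hcc⟩ := stab_dvd G hG P (m := m P) (m' := q - 1) (ht P hP) (by rw [← hq]; exact hst)
      refine ⟨q, c, j, hq', hj, ?_⟩
      obtain ⟨r, hr⟩ : ∃ r, q = r + 1 := ⟨q - 1, by omega⟩
      rw [hcc, h, hr] at hn
      rw [hr]
      simp only [Nat.add_sub_cancel] at hn ⊢
      have h10 : (r + 1 + 1) * (r * c + 1) = r * (c * (r + 1 + 1) + 1) + 2 := by ring
      omega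

end Pool.Agent.Helper22.HG2
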