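import Mathlib

/-!
MP_143e28_ag, project HG2 (helper22), `noQ` and `tameG` (helper1).
-/

set_option autoImplicit false

namespace Pool.Agent.Helper22.HG2

private theorem SpecB_eq (v : ℕ) : 2 * (8 ^ v + 2 ^ v) = 2 ^ (v + 1) * (2 ^ (2 * v) + 1) := by
  have h1 : (8 : ℕ) ^ v = 2 ^ v * 2 ^ (2 * v) := by
    rw [show (8 : ℕ) = 2 ^ 3 by norm_num, ← pow_mul, ← pow_add]
    congr 1
    ring
  rw [h1]
  ring

theorem noQ {v s : ℕ} (hs : 2 ≤ s) (h : 2 ^ s - 1 ∣ 2 * (8 ^ v + 2 ^ v)) : False := by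
  obtain ⟨u, rfl⟩ : ∃ u, s = u + 2 := ⟨s - 2, by omega⟩
  have hp : 2 ^ (u + 2) = 4 * 2 ^ u := by ring
  have hu : 1 ≤ 2 ^ u := Nat.one_le_two_pow
  rw [SpecB_eq] at h
  have hcop : Nat.Coprime (2 ^ (u + 2) - 1) (2 ^ (v + 1)) := by
    apply Nat.Coprime.pow_right
    rw [Nat.coprime_comm, Nat.Prime.coprime_iff_not_dvd Nat.prime_two]
    omega
  have h2 : 2 ^ (u + 2) - 1 ∣ 2 ^ (2 * v) + 1 := hcop.dvd_of_dvd_mul_left h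
  obtain ⟨k, hk⟩ : ∃ k, k = 2 * v / (u + 2) := ⟨_, rfl⟩
  obtain ⟨t, ht⟩ : ∃ t, t = 2 * v % (u + 2) := ⟨_, rfl⟩
  have hkt : 2 * v = (u + 2) * k + t := by
    rw [hk, ht]
    exact (Nat.div_add_mod _ _).symm
  have htlt : t < u + 2 := by
    rw [ht]
    exact Nat.mod_lt _ (by omega)
  have a1 : 2 ^ (u + 2) ≡ 1 [MOD 2 ^ (u + 2) - 1] :=
    ((Nat.modEq_iff_dvd' (by omega)).2 dvd_rfl).symm
  have a2 : 2 ^ (2 * v) + 1 ≡ 1 ^ k * 2 ^ t + 1 [MOD 2 ^ (u + 2) - 1] := by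
    have e1 : 2 ^ (2 * v) = (2 ^ (u + 2)) ^ k * 2 ^ t := by
      rw [hkt, pow_add 2 ((u + 2) * k) t, pow_mul]
    rw [e1]
    exact ((a1.pow k).mul_right _).add_right _
  have h3 : 2 ^ (u + 2) - 1 ∣ 1 ^ k * 2 ^ t + 1 := (a2.dvd_iff dvd_rfl).1 h2
  rw [one_pow, one_mul] at h3
  have h4 := Nat.le_of_dvd (Nat.succ_pos _) h3
  have h5 : 2 ^ t ≤ 2 ^ (u + 1) := Nat.pow_le_pow_right (by norm_num) (by omega)
  have h6 : 2 ^ (u + 1) = 2 * 2 ^ u := by ring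
  have h7 : 2 ^ u ≤ 1 := by omega
  have hu0 : u = 0 := by
    by_contra hne
    have : 2 ^ 1 ≤ 2 ^ u := Nat.pow_le_pow_right (by norm_num) (by omega)
    omega
  subst hu0
  have ht0 : t = 0 := by omega
  rw [ht0] at h3
  norm_num at h3

theorem tameG {v N : ℕ} (hN : N ≤ 2 ^ v) (n : ℕ) (hn2 : 2 ≤ n) (hnN : n ≤ N) (e w : ℕ) (hw : w < n)
    (h : 2 ^ e ∣ 2 * (8 ^ v + 2 ^ v) + 2 * n - 2 - w) : 2 ^ e ≤ 2 * N := by
  have hX : 2 * (8 ^ v + 2 ^ v) + 2 * n - 2 - w =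
      2 ^ (v + 1) * (2 ^ (2 * v) + 1) + (2 * n - 2 - w) := by
    rw [← SpecB_eq]
    omega
  rw [hX] at h
  have hY1 : 1 ≤ 2 * n - 2 - w := by omega
  have hp : 2 ^ (v + 1) = 2 * 2 ^ v := by ring
  rcases le_or_gt e (v + 1) with he | he
  · have h1 : 2 ^ e ∣ 2 ^ (v + 1) * (2 ^ (2 * v) + 1) := Dvd.dvd.mul_right (pow_dvd_pow 2 he) _
    have h2 : 2 ^ e ∣ 2 * n - 2 - w := (Nat.dvd_add_right h1).1 h
    have h3 := Nat.le_of_dvd hY1 h2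
    omega
  · exfalso
    have h0 : 2 ^ (v + 1) ∣ 2 ^ (v + 1) * (2 ^ (2 * v) + 1) + (2 * n - 2 - w) :=
      (pow_dvd_pow 2 he.le).trans h
    have h2 : 2 ^ (v + 1) ∣ 2 * n - 2 - w := (Nat.dvd_add_right (Dvd.intro _ rfl)).1 h0
    have h3 := Nat.le_of_dvd hY1 h2
    omega

end Pool.Agent.Helper22.HG2
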