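import Pool.Agent.Helper22.HG2.SpecA
import Pool.Agent.Helper22.HG2.SpecB

/-!
MP_143e28_ag, project HG2 (helper22): elementary number theory of the genera `g = 8 ^ v + 2 ^ v = 2 ^ v (4 ^ v + 1)`.

`casesG`: `n - 1 < 2 ^ v`, so `4` divides `r - 2 = 2 ^ (v + 1) (4 ^ v + 1) / (n - 1)` (`n - 1 = 2 ^ i m`, `m` odd, `i < v`); `r - 2 ≥ 2 * 4 ^ v`; `n r = 2 g + (r - 2) + 2 n`, `r - 2 ≤ g` (`n - 1 ≥ 2`), `2 n ≤ g`.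
`noQ`: `2 ^ s - 1` is odd and divides `2 ^ (v + 1) (4 ^ v + 1)`, so it divides `2 ^ (2 v) + 1`, so `2 ^ t + 1`, `t = 2 v % s < s` (`2 ^ s = 1` modulo `2 ^ s - 1`); `2 ^ s - 1 ≤ 2 ^ t + 1` gives `t = s - 1`, `2 ^ (s - 1) ≤ 2`, `s = 2`, `t = 1`: no, `2 v` is even.
`tameG`: `Y = 2 n - 2 - w`, `1 ≤ Y < 2 N ≤ 2 ^ (v + 1)`; `e ≥ v + 1`: `2 ^ (v + 1)` divides `2 g`, so `Y`: no; `e ≤ v`: `2 ^ e` divides `2 g`, so `Y`.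
`growG`: for `v` large `9 N ^ 3 ≤ g = 8 ^ v + 2 ^ v ≤ 2 * 8 ^ v` (`N = N g`), so `N ≤ 2 ^ v`.
-/
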