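import Pool.Agent.Helper22.HG2.HypG
import Pool.Agent.Helper22.HG2.UniG
import Pool.Agent.Helper22.HG2.Spec
import Pool.Agent.Helper22.HE.HypU
import Pool.Agent.Helper22.HE.Bridge
import Pool.Agent.Helper22.HB.Fin

/-!
MP_143e28_ag, project HG2 (helper22): hyperelliptic curves of genus `g = 8 ^ v + 2 ^ v` in characteristic 2 have at most `4 g + 4` automorphisms.

Copy `upperM` (`Helper22/HM/HypMU.lean`): `group_boundG` with `U = 2 ^ (v + 1)` (`U (U - 1) ≤ 2 g + 2`: `4 * 4 ^ v ≤ 2 * 8 ^ v` for `v ≥ 1`); the only pole has order `2 g + 1 = 2 ^ (v + 1) (4 ^ v + 1) + 1`: `uniG`; the second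
alternative is impossible by `noQ` (`q - 1 = 2 ^ j - 1 ∣ 2 g`, `j ≥ 2` as `q ≥ 4`).
-/

set_option autoImplicit false

namespace Pool.Agent.Helper22.HG2

open Polynomial OnePoint Pool.Agent.Helper28.HA Pool.Agent.Helper22.HB Pool.Agent.Helper22.HE

private theorem HypGU_single {k : Type*} (m : OnePoint k → ℕ) {N : ℕ}
    (hsum : ∑ᶠ P : OnePoint k, (if m P = 0 then 0 else m P + 1) = N) {P : OnePoint k}
    (hP : m P ≠ 0) (h : ∀ Q, m Q ≠ 0 → Q = P) : m P + 1 = N := by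
  rw [finsum_eq_single _ P] at hsum
  · rw [if_neg hP] at hsum
    exact hsum
  · intro Q hQ
    by_cases h0 : m Q = 0
    · rw [if_pos h0]
    · exact absurd (h Q h0) hQ

theorem upperGH {k F : Type*} [Field k] [IsAlgClosed k] [CharP k 2] [Field F] [Algebra k F] {v : ℕ}
    (hv : 3 ≤ v) (h : IsHyp2 k F (8 ^ v + 2 ^ v)) :
    Finite (F ≃ₐ[k] F) ∧ Nat.card (F ≃ₐ[k] F) ≤ 4 * (8 ^ v + 2 ^ v) + 4 := by
  have ht8 : 8 ≤ 2 ^ v := by
    calc 8 = 2 ^ 3 := by norm_num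
      _ ≤ 2 ^ v := Nat.pow_le_pow_right (by norm_num) hv
  have h8 : 8 ^ v = (2 ^ v) ^ 3 := by
    rw [← pow_mul, mul_comm v 3, pow_mul]
    norm_num
  have h4' : 4 ^ v = (2 ^ v) ^ 2 := by
    rw [← pow_mul, mul_comm v 2, pow_mul]
    norm_num
  have hU : 2 ^ (v + 1) * (2 ^ (v + 1) - 1) ≤ 2 * (8 ^ v + 2 ^ v) + 2 := by
    rw [h8, pow_succ]
    generalize 2 ^ v = t at ht8
    calc t * 2 * (t * 2 - 1) ≤ t * 2 * (t * 2) := Nat.mul_le_mul_left _ (Nat.sub_le _ _)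
      _ ≤ 2 * (t ^ 3 + t) + 2 := by nlinarith [Nat.mul_le_mul_left (t * t) ht8]
  have hd : 2 * (8 ^ v + 2 ^ v) + 1 = 2 ^ (v + 1) * (4 ^ v + 1) + 1 := by
    rw [h8, h4', pow_succ]
    ring
  have hodd : Odd (4 ^ v + 1) := by
    have : Even (4 ^ v) := (by decide : Even 4).pow_of_ne_zero (by omega)
    exact this.add_one
  have hu3 : 3 ≤ 4 ^ v + 1 := by
    rw [h4']
    nlinarith
  have hg2 : 2 ≤ 8 ^ v + 2 ^ v := by omega
  refine ⟨(fin_all hg2 h).1, ?_⟩
  obtain ⟨x, y, A, B, h⟩ := h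
  obtain ⟨h1, -⟩ := grp_fin h.cop h.ne h.odd hg2 h.genus
  obtain ⟨-, h4⟩ := auto_group2 hg2 h h1
  have h5 := group_boundG (grp A B) h1 (grp_mob A B) (pol A B)
    (fun s hs P => grp_pol h.cop h.ne h.odd hs P) (pol_fin h.ne) hg2 hU h.odd
    h.genus (fun P hP => grp_tame h.cop h.ne h.odd P hP) (by
      intro P hP honly
      have hmP : pol A B P = 2 ^ (v + 1) * (4 ^ v + 1) + 1 := by
        have := HypGU_single _ h.genus hP honly
        rw [← hd]
        omega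
      refine uniG h.cop h.ne (by omega) hodd hu3 hmP ?_
      intro Q hQ
      by_contra h0
      exact hQ (honly Q h0))
  rcases h5 with h5 | ⟨q, c, j, h6, h7, h9⟩
  · omega
  · exfalso
    have hj : 2 ≤ j := by
      by_contra hj
      have : q ≤ 2 := by
        rw [h7]
        calc 2 ^ j ≤ 2 ^ 1 := Nat.pow_le_pow_right (by norm_num) (by omega)
          _ = 2 := by norm_num
      omega
    refine noQ (v := v) hj ?_
    rw [← h7]
    exact ⟨_, h9⟩

end Pool.Agent.Helper22.HG2
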