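import Mathlib

/-!
MP_143e28_ag, project HG2 (helper22): elementary number theory of the genera `g = 8 ^ v + 2 ^ v`, first part (helper52).
-/

set_option autoImplicit false

namespace Pool.Agent.Helper22.HG2

theorem casesG {v N n r : ℕ} (hv : 3 ≤ v) (hN : N ≤ 2 ^ v) (hn : n.Prime) (hn2 : n ≠ 2) (hnN : n ≤ N)
    (h : (n - 1) * (r - 2) = 2 * (8 ^ v + 2 ^ v)) :
    r % 4 = 2 ∧ 12 < r ∧ 2 * n < r ∧ n * r ≤ 4 * (8 ^ v + 2 ^ v) + 4 := by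
  have h8 : (8 : ℕ) ^ v = (2 ^ v) ^ 3 := by
    rw [← pow_mul, mul_comm, pow_mul]
    norm_num
  have hq8 : 2 ^ 3 ≤ 2 ^ v := Nat.pow_le_pow_right (by norm_num) hv
  have h2 := hn.two_le
  have hodd : n % 2 = 1 := (hn.eq_two_or_odd).resolve_left hn2
  obtain ⟨m, rfl⟩ : ∃ m, n = m + 1 := ⟨n - 1, by omega⟩
  rw [Nat.add_sub_cancel] at h
  have hm2 : 2 ≤ m := by omega
  have hmq : m + 1 ≤ 2 ^ v := hnN.trans hN
  -- `4 ∣ r - 2`
  have h4 : 4 ∣ r - 2 := by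
    obtain ⟨i, m', hm', hmi⟩ := Nat.exists_eq_two_pow_mul_odd (n := m) (by omega)
    have hiv : i < v := by
      by_contra hc
      have h5 : 2 ^ v ≤ 2 ^ i := Nat.pow_le_pow_right (by norm_num) (by omega)
      have h6 : 2 ^ i ∣ m := ⟨m', hmi⟩
      have h7 := Nat.le_of_dvd (by omega) h6
      omega
    have h5 : 2 ^ (v + 1) ∣ m * (r - 2) := by
      rw [h, h8]
      exact ⟨(2 ^ v) ^ 2 + 1, by ring⟩
    have h6 : 2 ^ (v + 1) = 2 ^ i * 2 ^ (v + 1 - i) := by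
      rw [← pow_add]
      congr 1
      omega
    rw [h6, hmi, mul_assoc] at h5
    have h7 : 2 ^ (v + 1 - i) ∣ m' * (r - 2) :=
      Nat.dvd_of_mul_dvd_mul_left (by positivity) h5
    have hcop : Nat.Coprime (2 ^ (v + 1 - i)) m' := by
      apply Nat.Coprime.pow_left
      rw [Nat.coprime_comm]
      exact Nat.Coprime.symm (Nat.coprime_two_left.2 hm')
    have h9 : 2 ^ (v + 1 - i) ∣ r - 2 := hcop.dvd_of_dvd_mul_left h7
    have h10 : 2 ^ 2 ∣ 2 ^ (v + 1 - i) := pow_dvd_pow 2 (by omega)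
    exact (by norm_num : (4 : ℕ) = 2 ^ 2) ▸ h10.trans h9
  rw [h8] at h ⊢
  generalize 2 ^ v = q at *
  have ht : 2 * q ^ 2 < r - 2 := by
    by_contra hc
    have h5 : m * (r - 2) ≤ (q - 1) * (2 * q ^ 2) := Nat.mul_le_mul (by omega) (by omega)
    obtain ⟨z, rfl⟩ : ∃ z, q = z + 1 := ⟨q - 1, by omega⟩
    rw [Nat.add_sub_cancel, h] at h5
    nlinarith [h5]
  have hq2 : q * 8 ≤ q ^ 2 := by nlinarith
  have hq3 : q ^ 2 * 8 ≤ q ^ 3 := by nlinarith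
  have h5 : 2 * (r - 2) ≤ m * (r - 2) := Nat.mul_le_mul_right _ hm2
  have h6 : (m + 1) * r = m * (r - 2) + (r - 2) + 2 * m + 2 := by
    obtain ⟨t, rfl⟩ : ∃ t, r = t + 2 := ⟨r - 2, by omega⟩
    rw [Nat.add_sub_cancel]
    ring
  refine ⟨by omega, by omega, by omega, ?_⟩
  rw [h6, h]
  rw [h] at h5
  omega

theorem growG (N : ℕ → ℕ) (hN : ∀ᶠ g in Filter.atTop, 9 * N g ^ 3 ≤ g) :
    ∃ v₀ : ℕ, 3 ≤ v₀ ∧ ∀ v : ℕ, v₀ ≤ v →
      9 * N (8 ^ v + 2 ^ v) ^ 3 ≤ 8 ^ v + 2 ^ v ∧ N (8 ^ v + 2 ^ v) ≤ 2 ^ v := by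
  obtain ⟨G, hG⟩ := Filter.eventually_atTop.1 hN
  refine ⟨max 3 G, le_max_left _ _, fun v hv => ?_⟩
  have h1 : v < 2 ^ v := Nat.lt_two_pow_self
  have h6 : 0 < 8 ^ v := by positivity
  have h2 : G ≤ 8 ^ v + 2 ^ v := by
    have := (le_max_right 3 G).trans hv
    omega
  have h3 := hG _ h2
  refine ⟨h3, ?_⟩
  by_contra hc
  have h4 : (2 ^ v) ^ 3 ≤ N (8 ^ v + 2 ^ v) ^ 3 := Nat.pow_le_pow_left (by omega) 3
  have h8 : (8 : ℕ) ^ v = (2 ^ v) ^ 3 := by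
    rw [← pow_mul, mul_comm, pow_mul]
    norm_num
  have h5 : 2 ^ v ≤ 8 ^ v := Nat.pow_le_pow_left (by norm_num) v
  rw [← h8] at h4
  omega

end Pool.Agent.Helper22.HG2
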