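import Mathlib

/-!
MP_143e28_ag, project HG2 (helper22): a polynomial `p` of degree `2 ^ e u + 1`, `u ≥ 3` odd, in characteristic 2: at most `2 ^ e` numbers `v` with `p (X + v) = p (X) + w ^ 2 + w`.

Copy of `tri8` (`Helper22/HM/Tri8.lean`) with `8 = 2 ^ 3` replaced by `2 ^ e` (`E = 2 ^ e`, the coefficient of `X ^ (E u + 1 - E)`, odd and larger than `E u / 2 ≥ deg w`): only `choose (E u + 1) E` odd needs Lucas (induction on `e`:
`choose (2 ^ e u) (2 ^ e) = u` modulo 2, and `choose (2 n + 1) (2 m) = choose n m = choose (2 n) (2 m)` modulo 2).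
-/

set_option autoImplicit false

namespace Pool.Agent.Helper22.HG2

open Polynomial

private theorem TriG_sq_coeff {k : Type*} [Field k] [CharP k 2] (w : k[X]) {n : ℕ} (hn : ¬ 2 ∣ n) :
    (w ^ 2).coeff n = 0 := by
  haveI : Fact (Nat.Prime 2) := ⟨Nat.prime_two⟩
  have h1 := Polynomial.map_frobenius_expand 2 w
  rw [← h1, Polynomial.coeff_map, Polynomial.coeff_expand (by norm_num : 0 < 2), if_neg hn, map_zero]

private theorem TriG_int {k : Type*} [Field k] {q : k[X]} {u : RatFunc k}
    (h : u ^ 2 + u = algebraMap k[X] (RatFunc k) q) :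
    ∃ w : k[X], algebraMap k[X] (RatFunc k) w = u := by
  have h1 : IsIntegral k[X] u := by
    refine ⟨X ^ 2 + X - C q, ?_, ?_⟩
    · have : (X ^ 2 + X - C q : k[X][X]) = X ^ 2 + (X - C q) := by ring
      rw [this]
      apply Polynomial.monic_X_pow_add
      exact lt_of_le_of_lt (Polynomial.degree_X_sub_C_le q) (by norm_num)
    · simp only [eval₂_sub, eval₂_add, eval₂_pow, eval₂_X, eval₂_C]
      rw [h, sub_self]
  exact IsIntegrallyClosed.isIntegral_iff.mp h1

private theorem TriG_deg {k : Type*} [Field k] {w q : k[X]} {g : ℕ} (h : w ^ 2 + w = q)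
    (hq : q.natDegree ≤ 2 * g) : w.natDegree ≤ g := by
  by_contra hcon
  rw [not_le] at hcon
  have h1 : w.natDegree < (w ^ 2).natDegree := by
    rw [Polynomial.natDegree_pow]
    omega
  have h2 : (w ^ 2 + w).natDegree = (w ^ 2).natDegree :=
    Polynomial.natDegree_add_eq_left_of_natDegree_lt h1
  rw [h, Polynomial.natDegree_pow] at h2
  omega

private theorem TriG_lucas (e u : ℕ) : (2 ^ e * u).choose (2 ^ e) ≡ u [MOD 2] := by
  haveI : Fact (Nat.Prime 2) := ⟨Nat.prime_two⟩
  induction e with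
  | zero =>
    rw [pow_zero, one_mul, Nat.choose_one_right]
  | succ e ih =>
    have h1 := Choose.choose_modEq_choose_mod_mul_choose_div_nat (p := 2) (n := 2 ^ (e + 1) * u)
      (k := 2 ^ (e + 1))
    have a1 : 2 ^ (e + 1) * u = 2 * (2 ^ e * u) := by rw [pow_succ]; ring
    have a2 : 2 ^ (e + 1) = 2 * 2 ^ e := by rw [pow_succ]; ring
    have b1 : 2 ^ (e + 1) * u % 2 = 0 := by rw [a1]; omega
    have b2 : 2 ^ (e + 1) * u / 2 = 2 ^ e * u := by rw [a1]; omega
    have b3 : 2 ^ (e + 1) % 2 = 0 := by rw [a2]; omega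
    have b4 : 2 ^ (e + 1) / 2 = 2 ^ e := by rw [a2]; omega
    rw [b1, b2, b3, b4, Nat.choose_self, one_mul] at h1
    exact h1.trans ih

private theorem TriG_choose {f u : ℕ} (hu : Odd u) :
    Odd ((2 ^ (f + 1) * u + 1).choose (2 ^ (f + 1))) := by
  haveI : Fact (Nat.Prime 2) := ⟨Nat.prime_two⟩
  have h1 := Choose.choose_modEq_choose_mod_mul_choose_div_nat (p := 2) (n := 2 ^ (f + 1) * u + 1)
    (k := 2 ^ (f + 1))
  have a1 : 2 ^ (f + 1) * u = 2 * (2 ^ f * u) := by rw [pow_succ]; ring
  have a2 : 2 ^ (f + 1) = 2 * 2 ^ f := by rw [pow_succ]; ring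
  have b1 : (2 ^ (f + 1) * u + 1) % 2 = 1 := by rw [a1]; omega
  have b2 : (2 ^ (f + 1) * u + 1) / 2 = 2 ^ f * u := by rw [a1]; omega
  have b3 : 2 ^ (f + 1) % 2 = 0 := by rw [a2]; omega
  have b4 : 2 ^ (f + 1) / 2 = 2 ^ f := by rw [a2]; omega
  rw [b1, b2, b3, b4, Nat.choose_zero_right, one_mul] at h1
  have h2 := h1.trans (TriG_lucas f u)
  rw [Nat.odd_iff] at hu ⊢
  unfold Nat.ModEq at h2
  omega

theorem triG {k : Type*} [Field k] [CharP k 2] {e u : ℕ} (he : 1 ≤ e) (hu : Odd u) (hu3 : 3 ≤ u) {p : k[X]}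
    (hp : p.natDegree = 2 ^ e * u + 1) :
    ∃ R : k[X], R ≠ 0 ∧ R.natDegree ≤ 2 ^ e ∧ ∀ (v : k) (w : RatFunc k),
      algebraMap k[X] (RatFunc k) (p.comp (X + C v)) = algebraMap k[X] (RatFunc k) p + w ^ 2 + w →
      R.eval v = 0 := by
  obtain ⟨f, rfl⟩ : ∃ f, e = f + 1 := ⟨e - 1, by omega⟩
  have hch := TriG_choose (f := f) hu
  obtain ⟨G, hG⟩ : ∃ G, G = 2 ^ f := ⟨_, rfl⟩
  have hG1 : 1 ≤ G := by
    rw [hG]
    exact Nat.one_le_two_pow
  have hE : 2 ^ (f + 1) = 2 * G := by rw [hG, pow_succ]; ring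
  rw [hE] at hch hp ⊢
  have hGu : 3 * G ≤ G * u := by
    rw [mul_comm G u]
    exact Nat.mul_le_mul_right G hu3
  have hGu2 : 2 * G * u = 2 * (G * u) := by ring
  rw [hGu2] at hch hp
  obtain ⟨n, hn⟩ : ∃ n, n = 2 * (G * u) + 1 - 2 * G := ⟨_, rfl⟩
  have hn1 : n + 2 * G = 2 * (G * u) + 1 := by omega
  have hp0 : p ≠ 0 := by
    rintro rfl
    rw [natDegree_zero] at hp
    omega
  have h2k : (2 : k) = 0 := CharTwo.two_eq_zero
  refine ⟨hasseDeriv n p - C (p.coeff n), ?_, ?_, ?_⟩
  · intro h0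
    have h1 := congrArg (fun q : k[X] => q.coeff (2 * G)) h0
    simp only [coeff_sub, coeff_zero] at h1
    rw [Polynomial.hasseDeriv_coeff, Polynomial.coeff_C, if_neg (by omega), sub_zero] at h1
    have e1 : 2 * G + n = 2 * (G * u) + 1 := by omega
    have e2 : (2 * (G * u) + 1).choose n = (2 * (G * u) + 1).choose (2 * G) := by
      have h := Nat.choose_symm (n := 2 * (G * u) + 1) (k := 2 * G) (by omega)
      rw [← hn] at h
      exact h
    rw [e1, e2] at h1
    obtain ⟨m, hm⟩ := hch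
    rw [hm] at h1
    push_cast at h1
    rw [h2k, zero_mul, zero_add, one_mul] at h1
    have h7 : p.coeff (2 * (G * u) + 1) ≠ 0 := by
      rw [← hp]
      exact Polynomial.leadingCoeff_ne_zero.mpr hp0
    exact h7 h1
  · refine (Polynomial.natDegree_sub_le _ _).trans (max_le ?_ ?_)
    · have h3 := Polynomial.natDegree_hasseDeriv_le p n
      omega
    · rw [Polynomial.natDegree_C]
      exact Nat.zero_le _
  · intro v w h
    rw [Polynomial.eval_sub, Polynomial.eval_C]
    have h1 : w ^ 2 + w = algebraMap k[X] (RatFunc k) (p.comp (X + C v) - p) := by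
      rw [map_sub, h]
      ring
    obtain ⟨r, rfl⟩ := TriG_int h1
    have h2 : r ^ 2 + r = p.comp (X + C v) - p := by
      apply RatFunc.algebraMap_injective k
      rw [← h1, map_add, map_pow]
    have hdeg : (p.comp (X + C v) - p).natDegree ≤ 2 * (G * u) := by
      have h3 : (p.comp (X + C v) - p).degree < (p.comp (X + C v)).degree := by
        apply Polynomial.degree_sub_lt_left
        · rw [← Polynomial.taylor_apply, Polynomial.degree_taylor]
        · rw [← Polynomial.taylor_apply]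
          intro h4
          exact hp0 ((Polynomial.taylor_injective v) (by rw [h4, map_zero]))
        · rw [← Polynomial.taylor_apply, Polynomial.leadingCoeff_taylor]
      rw [← Polynomial.taylor_apply, Polynomial.degree_taylor,
        Polynomial.degree_eq_natDegree hp0, hp] at h3
      rw [← Polynomial.taylor_apply]
      by_cases h4 : Polynomial.taylor v p - p = 0
      · rw [h4, natDegree_zero]
        omega
      · rw [Polynomial.degree_eq_natDegree h4] at h3
        have h5 : (Polynomial.taylor v p - p).natDegree < 2 * (G * u) + 1 := by exact_mod_cast h3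
        omega
    have hw := TriG_deg h2 hdeg
    have h5 := congrArg (fun q : k[X] => q.coeff n) h2
    simp only [coeff_add, coeff_sub] at h5
    rw [TriG_sq_coeff r (by omega),
      Polynomial.coeff_eq_zero_of_natDegree_lt (by omega : r.natDegree < n),
      ← Polynomial.taylor_apply, Polynomial.taylor_coeff, add_zero] at h5
    exact h5.symm

end Pool.Agent.Helper22.HG2
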