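import Pool.Agent.Helper22.HG2.HypGU
import Pool.Agent.Helper22.HG2.CycG
import Pool.Agent.Helper54.HW.Cls

/-!
MP_143e28_ag, project HG2 (helper22): the upper bound `4 g + 4` at the genera `g = 8 ^ v + 2 ^ v` in characteristic 2, for the
growing class of `Helper54/HW/Cls.lean`.
-/

set_option autoImplicit false

namespace Pool.Agent.Helper22.HG2

open Polynomial Pool.Agent.Helper54.HY Pool.Agent.Helper54.HZ Pool.Agent.Helper28.HN
  Pool.Agent.Helper22.HM Pool.Agent.Helper22.HB Pool.Agent.Helper22.HE Pool.Agent.Helper54.HW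

theorem upG {k F : Type*} [Field k] [IsAlgClosed k] [CharP k 2] [Field F] [Algebra k F] {v N : ℕ}
    (hv : 3 ≤ v) (hN : N ≤ 2 ^ v) (hN3 : 9 * N ^ 3 ≤ 8 ^ v + 2 ^ v)
    (h : IsGrow k F 2 N (8 ^ v + 2 ^ v)) :
    Finite (F ≃ₐ[k] F) ∧ Nat.card (F ≃ₐ[k] F) ≤ 4 * (8 ^ v + 2 ^ v) + 4 := by
  rcases h with ((⟨n, hn, x, y, f, hF⟩ | ⟨-, x, y, f, hF⟩) | ⟨n, -, hn, x, hF⟩) | ⟨s, x, y, f, hF⟩
  · exact upperNG hv hN hn hF
  · exact upperGH hv ⟨x, y, f.num, f.denom, pres2_of_as hF⟩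
  · exact upperDG hv hN hN3 hn hF
  · have hs := hF.pos
    rcases Nat.lt_or_ge 1 s with h2 | h1
    · exfalso
      refine noQ (v := v) (s := s) h2 ?_
      have e1 : ((2 : ℤ) ^ s - 1) ∣ 2 * ((8 ^ v + 2 ^ v : ℕ) : ℤ) := by
        have := hF.genus
        rw [← this]
        push_cast
        exact dvd_mul_right _ _
      have e3 : (((2 ^ s - 1 : ℕ) : ℤ)) ∣ ((2 * (8 ^ v + 2 ^ v) : ℕ) : ℤ) := by
        rw [Nat.cast_sub (Nat.one_le_pow _ _ (by norm_num))]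
        push_cast
        push_cast at e1
        exact e1
      exact Int.natCast_dvd_natCast.1 e3
    · obtain rfl : s = 1 := by omega
      refine upperGH hv ⟨x, y, f.num, f.denom, pres2_of_as (f := f) ⟨hF.trans, hF.gen, hF.poles, ?_, ?_⟩⟩
      · have := hF.eqn
        rwa [pow_one] at this
      · have := hF.genus
        rwa [pow_one] at this

theorem upperG2 {k : Type*} [Field k] [IsAlgClosed k] [CharP k 2] (N : ℕ → ℕ)
    (hN : ∀ᶠ g in Filter.atTop, 9 * N g ^ 3 ≤ g) :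
    ∃ v₀ : ℕ, 3 ≤ v₀ ∧ ∀ v : ℕ, v₀ ≤ v → muGrow k 2 N (8 ^ v + 2 ^ v) ≤ ((4 * (8 ^ v + 2 ^ v) + 4 : ℕ) : ℕ∞) := by
  obtain ⟨v₀, hv₀, h⟩ := growG N hN
  refine ⟨v₀, hv₀, fun v hv => ?_⟩
  obtain ⟨h1, h2⟩ := h v hv
  unfold muGrow
  refine sSup_le ?_
  rintro n ⟨F, _, _, hF, rfl⟩
  obtain ⟨ha, hb⟩ := upG (by omega) h2 h1 hF
  rw [ENat.card_eq_coe_natCard]
  exact_mod_cast hb

end Pool.Agent.Helper22.HG2
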